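import Pool.Agent.QES.C
import Pool.Agent.QES.Box

/-!
# MP_1e9ba9_an: phases covered by few strips
-/

set_option autoImplicit false

namespace Pool.Agent.Results.MP_1e9ba9_an.CoveredPhase

open Pool.Agent.QES MeasureTheory

/-- Let `φ` be measurable and `S_N(x) = ∑_{|n| ≤ N} a_n e(n φ(x) + n ^ 2 x)`. The bound
`‖S_N‖_{L^4(-1,1)} ≤ C N ^ (κ + ε) ‖a‖_2` for all `ε > 0`, `N ≥ 1` and all `a` holds
(1) with `κ = d / 4`, `d ≥ 0`, if the graph of `φ` is covered by `N ^ d` strips (`Covered φ d`);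
(2) with `κ = d / 4`, `d ≥ 0`, if for some integer `c` and some set `Y` of upper box dimension at most
`d`, for almost every `x` in `[-1, 1]`, `φ(x) - c x` lies in `Y` modulo 1 (`d = 0`: Q1 for these `φ`);
(3) with `κ = 1 / (4 (s + 1))` if for all `K ≥ 1` the set of `x` in `[-1, 1]` at which `φ` takes
none of the values `y 0, ..., y (K - 1)` has measure at most `C₀ K ^ (-s)`, `s > 0`.
(4) The set of `0` and the numbers `2 ^ (-k)` is an example of upper box dimension 0. -/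
theorem result :
    (∀ (φ : ℝ → ℝ) (d : ℝ), Measurable φ → 0 ≤ d → Covered φ d → FourthBound φ (d / 4)) ∧
    (∀ (φ : ℝ → ℝ) (Y : Set ℝ) (d : ℝ) (c : ℤ), Measurable φ → 0 ≤ d → BoxDimLE Y d →
      (∀ᵐ x ∂(volume.restrict (Set.Icc (-1 : ℝ) 1)), ∃ k : ℤ, φ x - c * x - k ∈ Y) →
      FourthBound φ (d / 4)) ∧
    (∀ (φ : ℝ → ℝ) (y : ℕ → ℝ) (s C₀ : ℝ), Measurable φ → 0 < s →
      (∀ K : ℕ, 1 ≤ K → volume {x : ℝ | x ∈ Set.Icc (-1) 1 ∧ ∀ k < K, φ x ≠ y k} ≤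
        ENNReal.ofReal (C₀ * (K : ℝ) ^ (-s))) →
      FourthBound φ (1 / (4 * (s + 1)))) ∧
    BoxDimLE ({0} ∪ {y : ℝ | ∃ k : ℕ, y = (2 : ℝ) ^ (-(k : ℤ))}) 0 := by
  refine ⟨fun φ d hφ hd h ε hε => covered_bound φ hφ d hd h ε hε, fun φ Y d c hφ hd hY h ε hε =>
    covered_bound φ hφ d hd (covered_of_box φ Y d c hY h) ε hε, fun φ y s C₀ hφ hs h ε hε => ?_,
    fun ε hε => ?_⟩
  · obtain ⟨C, hC⟩ := covered_bound φ hφ (1 / (s + 1)) (by positivity)
      (covered_of_values φ y s C₀ hs h) ε hε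
    refine ⟨C, fun N hN a => ?_⟩
    have e1 : (1 / (4 * (s + 1)) : ℝ) = 1 / (s + 1) / 4 := by
      have : s + 1 ≠ 0 := by positivity
      field_simp
    rw [e1]
    exact hC N hN a
  · obtain ⟨C, hC⟩ := pow2 ε hε
    refine ⟨C, fun N hN => ?_⟩
    rw [zero_add]
    exact hC N hN

end Pool.Agent.Results.MP_1e9ba9_an.CoveredPhase
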