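import Mathlib
import Pool.Agent.LVS.All

/-!
# MP_1e9ba9_an: the large values of quadratic exponential sums with measurable phase

The `L⁴` estimate of Q1 holds for the large values of `S_N(x) = ∑_{|n| ≤ N} a_n e(n φ(x) + n² x)`, for
every measurable phase `φ`, with a constant which does not depend on `φ`.
-/

open MeasureTheory Set

namespace Pool.Agent.Results.MP_1e9ba9_an.LargeValues

open Pool.Agent.LVS

/-- For every `ε > 0` there is `C` such that for every measurable `φ`, every `N ≥ 1` and all complex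
numbers `a_n` the integral of `|S_N|⁴` over the `x` in `[-1, 1]` with `|S_N(x)| ≥ C N^(1/4+ε) ‖a‖` is at
most `C N^ε ‖a‖⁴`, where `‖a‖² = ∑_{|n| ≤ N} |a_n|²`. -/
theorem result : ∀ ε : ℝ, 0 < ε → ∃ C : ℝ, 0 < C ∧ ∀ φ : ℝ → ℝ, Measurable φ →
    ∀ N : ℕ, 1 ≤ N → ∀ a : ℤ → ℂ,
    ∫ x in {x | x ∈ Icc (-1 : ℝ) 1 ∧ C * (N : ℝ) ^ (1 / 4 + ε) * nrm N a ≤ ‖SN N a φ x‖},
      ‖SN N a φ x‖ ^ 4 ≤ C * (N : ℝ) ^ ε * nrm N a ^ 4 :=
  all_FIN

end Pool.Agent.Results.MP_1e9ba9_an.LargeValues
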