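import Mathlib
import Pool.Agent.QLL.Main

/-!
# The loss in the `L^4` estimate for quadratic exponential sums with measurable phase is at least
`(log N) ^ (1 / 2)`
-/

set_option autoImplicit false

namespace Pool.Agent.Results.MP_1e9ba9_an.LogLoss

open Finset Pool.Agent.QLL

/-- `S N a φ x = ∑ n ∈ [-N, N], a n * e (n * φ x + n ^ 2 * x)` with `e t = exp (2 π i t)`, and
`nrm N a = (∑ n ∈ [-N, N], |a n| ^ 2) ^ (1 / 2)`.

For every measurable `φ₀` with values in `[0, 1]` and every `δ > 0` there is a measurable `φ` with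
values in `[0, 1]` and `|φ - φ₀| ≤ δ` everywhere such that for all large `N` there are coefficients
`a n ∈ {0, 1}`, not all `0`, with `|S N a φ x| ≥ (1 / 5) * (log N) ^ (1 / 2) * nrm N a` for every real
`x`; in particular the `L ^ 4` norm of `S N a φ` on `(-1, 1)` is at least as large. -/
theorem result (φ₀ : ℝ → ℝ) (h₀ : Measurable φ₀) (h01 : ∀ x, φ₀ x ∈ Set.Icc (0 : ℝ) 1) (δ : ℝ)
    (hδ : 0 < δ) : ∃ φ : ℝ → ℝ, Measurable φ ∧ (∀ x, φ x ∈ Set.Icc (0 : ℝ) 1) ∧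
      (∀ x, |φ x - φ₀ x| ≤ δ) ∧ ∃ N₀ : ℕ, ∀ N : ℕ, N₀ ≤ N → ∃ a : ℤ → ℂ,
        (∀ n, a n = 0 ∨ a n = 1) ∧ 0 < nrm N a ∧
        (∀ x, 1 / 5 * √(Real.log N) * nrm N a ≤ ‖S N a φ x‖) ∧
        1 / 5 * √(Real.log N) * nrm N a ≤
          (∫ x in (-1 : ℝ)..1, ‖S N a φ x‖ ^ 4) ^ (1 / 4 : ℝ) :=
  main φ₀ h₀ h01 δ hδ

end Pool.Agent.Results.MP_1e9ba9_an.LogLoss
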