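import Pool.Agent.UCQ.Main
import Pool.Agent.UCQ.Max

set_option autoImplicit false

/-!
# MP_1e9ba9_an: the constant may be taken independent of the phase

For every exponent `s` of `N`: the `L⁴` inequality of the question for each measurable phase, with a
constant that depends on the phase, the same inequality with one constant for all phases, and the
maximal inequality (supremum over all values of the phase) are equivalent.
-/

namespace Pool.Agent.Results.MP_1e9ba9_an.UniformConstant

open Pool.Agent.UCQ

theorem result (s : ℝ) : [Each s, Uniform s, Maximal s].TFAE := by
  have h1 : Each s ↔ Uniform s := ⟨uniform_of_each, each_of_uniform⟩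
  have h2 : Uniform s ↔ Maximal s := uniform_iff_maximal s
  tfae_have 1 ↔ 2 := h1
  tfae_have 2 ↔ 3 := h2
  tfae_finish

end Pool.Agent.Results.MP_1e9ba9_an.UniformConstant
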